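import Mathlib

set_option autoImplicit false

namespace Pool.Agent.Results.MP_a0ba93_nt.ExponentEight

open Finset

/-- `c` is attainable: there is an infinite set `a 0 < a 1 < …` of positive integers (so `a n` is
the `(n+1)`-st element) such that sums of `r` distinct elements and sums of `s` distinct elements
never agree for `r ≠ s`, and all gaps satisfy `a_{n+1} - a_n ≤ n^c` from some point on
(in 1-based indexing; here the index shift makes the bound `(n+1)^c`). -/
def Attainable (c : ℝ) : Prop :=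
  ∃ a : ℕ → ℕ, StrictMono a ∧ (∀ n, 0 < a n) ∧
    (∀ S T : Finset ℕ, S.Nonempty → T.Nonempty →
      ∑ i ∈ S, a i = ∑ i ∈ T, a i → S.card = T.card) ∧
    ∃ n₀ : ℕ, ∀ n ≥ n₀, ((a (n + 1) : ℝ) - a n) ≤ ((n : ℝ) + 1) ^ c

/-- block ends -/
def M (j : ℕ) : ℕ := 2 ^ (3 ^ j)

/-- block starts -/
def st : ℕ → ℕ
  | 0 => 0
  | (j + 1) => M j

/-- residues -/
def t : ℕ → ℕ
  | 0 => 1
  | (j + 1) => 4 * (M j) ^ 3 * t j

/-- moduli -/
def q (j : ℕ) : ℕ := 2 * M j * t j

lemma M_pos (j : ℕ) : 2 ≤ M j := by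
  unfold M
  calc 2 = 2 ^ 1 := by norm_num
    _ ≤ 2 ^ (3 ^ j) := Nat.pow_le_pow_right (by norm_num) (Nat.one_le_pow _ _ (by norm_num))

lemma M_succ (j : ℕ) : M (j + 1) = (M j) ^ 3 := by
  unfold M
  rw [← pow_mul, pow_succ]

lemma M_lt (j : ℕ) : M j < M (j + 1) := by
  unfold M
  exact Nat.pow_lt_pow_right (by norm_num) (Nat.pow_lt_pow_right (by norm_num) (by omega))

lemma t_pos (j : ℕ) : 0 < t j := by
  induction j with
  | zero => simp [t]
  | succ j ih =>
    have := M_pos j
    simp only [t]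
    positivity

lemma q_pos (j : ℕ) : 0 < q j := by
  have := M_pos j
  have := t_pos j
  unfold q
  positivity

lemma st_lt (j : ℕ) : st j < st (j + 1) := by
  cases j with
  | zero =>
    show 0 < M 0
    exact lt_of_lt_of_le (by norm_num) (M_pos 0)
  | succ j => exact M_lt j

lemma st_mono : StrictMono st := strictMono_nat_of_lt_succ st_lt

lemma exists_block (n : ℕ) : ∃ j, n < st (j + 1) :=
  ⟨n, lt_of_lt_of_le (Nat.lt_succ_self n) (st_mono.id_le (n + 1))⟩

/-- block of an index -/
noncomputable def bl (n : ℕ) : ℕ := Nat.find (exists_block n)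

lemma lt_bl (n : ℕ) : n < st (bl n + 1) := Nat.find_spec (exists_block n)

lemma bl_le (n : ℕ) : st (bl n) ≤ n := by
  rcases Nat.eq_zero_or_pos (bl n) with h | h
  · rw [h]; exact Nat.zero_le n
  · have := Nat.find_min (exists_block n) (m := bl n - 1) (by unfold bl at *; omega)
    have e : bl n - 1 + 1 = bl n := by omega
    rw [e] at this
    omega

lemma bl_eq {n j : ℕ} (h1 : st j ≤ n) (h2 : n < st (j + 1)) : bl n = j := by
  have h3 := lt_bl n
  have h4 := bl_le n
  rcases lt_trichotomy (bl n) j with h | h | h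
  · have := st_mono.monotone (show bl n + 1 ≤ j by omega)
    omega
  · exact h
  · have := st_mono.monotone (show j + 1 ≤ bl n by omega)
    omega

/-- the sequence -/
noncomputable def a (n : ℕ) : ℕ := t (bl n) + (n - st (bl n)) * q (bl n)

lemma a_eq {n j : ℕ} (h1 : st j ≤ n) (h2 : n < st (j + 1)) :
    a n = t j + (n - st j) * q j := by
  unfold a
  rw [bl_eq h1 h2]

lemma a_upper {n j : ℕ} (h1 : st j ≤ n) (h2 : n < st (j + 1)) :
    a n ≤ t j + M j * q j := by
  rw [a_eq h1 h2]
  have : n - st j ≤ M j := by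
    have : st (j + 1) = M j := rfl
    omega
  gcongr

lemma key_lt (j : ℕ) : t j + M j * (t j + M j * q j) < t (j + 1) := by
  have hM := M_pos j
  have ht := t_pos j
  have h1 : t j + M j * (t j + M j * q j) = t j * (1 + M j + 2 * M j ^ 3) := by
    unfold q; ring
  have h2 : t (j + 1) = t j * (4 * M j ^ 3) := by
    simp only [t]; ring
  rw [h1, h2]
  apply Nat.mul_lt_mul_of_pos_left _ ht
  have h3 : M j * 4 ≤ M j ^ 3 := by
    have : M j ^ 3 = M j * (M j * M j) := by ring
    rw [this]
    apply Nat.mul_le_mul_left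
    nlinarith
  omega

lemma a_strictMono : StrictMono a := by
  apply strictMono_nat_of_lt_succ
  intro n
  have h1 := bl_le n
  have h2 := lt_bl n
  set j := bl n with hj
  rcases Nat.lt_or_ge (n + 1) (st (j + 1)) with h | h
  · rw [a_eq h1 h2, a_eq (by omega : st j ≤ n + 1) h]
    have := q_pos j
    have e : n + 1 - st j = (n - st j) + 1 := by omega
    rw [e, Nat.add_mul]
    omega
  · have e : n + 1 = st (j + 1) := by omega
    have h3 : a (n + 1) = t (j + 1) := by
      rw [e, a_eq (le_refl _) (st_lt _)]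
      simp
    rw [h3]
    have h4 := a_upper h1 h2
    have h5 := key_lt j
    have h6 := M_pos j
    have h7 : t j + M j * q j ≤ M j * (t j + M j * q j) := Nat.le_mul_of_pos_left _ (by omega)
    omega

/-- decomposition of a sum over indices below `st (j+1)` -/
lemma decomp (j : ℕ) (U : Finset ℕ) (hU : ∀ i ∈ U, i < st (j + 1)) :
    ∑ i ∈ U, a i = ∑ i ∈ U.filter (fun i => i < st j), a i
      + (U.filter (fun i => ¬ i < st j)).card * t j
      + q j * ∑ i ∈ U.filter (fun i => ¬ i < st j), (i - st j) := by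
  rw [← Finset.sum_filter_add_sum_filter_not U (fun i => i < st j)]
  have : ∑ i ∈ U.filter (fun i => ¬ i < st j), a i
      = ∑ i ∈ U.filter (fun i => ¬ i < st j), (t j + q j * (i - st j)) := by
    apply Finset.sum_congr rfl
    intro i hi
    rw [Finset.mem_filter] at hi
    rw [a_eq (by omega) (hU i hi.1)]
    ring
  rw [this, Finset.sum_add_distrib, Finset.sum_const, smul_eq_mul, ← Finset.mul_sum]
  ring

lemma card_le (j : ℕ) (U : Finset ℕ) (hU : ∀ i ∈ U, i < st (j + 1)) :
    (U.filter (fun i => ¬ i < st j)).card ≤ M j := by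
  have : U.filter (fun i => ¬ i < st j) ⊆ range (M j) := by
    intro i hi
    rw [Finset.mem_filter] at hi
    exact Finset.mem_range.mpr (hU i hi.1)
  calc _ ≤ (range (M j)).card := Finset.card_le_card this
    _ = M j := Finset.card_range _

lemma sum_lt (j : ℕ) : ∀ U : Finset ℕ, (∀ i ∈ U, i < st j) → ∑ i ∈ U, a i < t j := by
  induction j with
  | zero =>
    intro U hU
    have : U = ∅ := by
      apply Finset.eq_empty_of_forall_notMem
      intro i hi
      exact absurd (hU i hi) (by simp [st])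
    rw [this, Finset.sum_empty]
    exact t_pos 0
  | succ j ih =>
    intro U hU
    rw [← Finset.sum_filter_add_sum_filter_not U (fun i => i < st j)]
    have h1 := ih (U.filter (fun i => i < st j)) (fun i hi => (Finset.mem_filter.mp hi).2)
    have h2 : ∑ i ∈ U.filter (fun i => ¬ i < st j), a i ≤ M j * (t j + M j * q j) := by
      calc _ ≤ (U.filter (fun i => ¬ i < st j)).card • (t j + M j * q j) := by
            apply Finset.sum_le_card_nsmul
            intro i hi
            rw [Finset.mem_filter] at hi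
            exact a_upper (by omega) (hU i hi.1)
        _ ≤ M j * (t j + M j * q j) := by
            rw [smul_eq_mul]
            exact Nat.mul_le_mul_right _ (card_le j U hU)
    have h3 := key_lt j
    omega

lemma adm (j : ℕ) : ∀ U V : Finset ℕ, (∀ i ∈ U, i < st j) → (∀ i ∈ V, i < st j) →
    ∑ i ∈ U, a i = ∑ i ∈ V, a i → U.card = V.card := by
  induction j with
  | zero =>
    intro U V hU hV _
    have h1 : U = ∅ := by
      apply Finset.eq_empty_of_forall_notMem
      intro i hi
      exact absurd (hU i hi) (by simp [st])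
    have h2 : V = ∅ := by
      apply Finset.eq_empty_of_forall_notMem
      intro i hi
      exact absurd (hV i hi) (by simp [st])
    rw [h1, h2]
  | succ j ih =>
    intro U V hU hV h
    have ht := t_pos j
    have key : ∀ W : Finset ℕ, (∀ i ∈ W, i < st (j + 1)) →
        ((∑ i ∈ W, a i) % q j) / t j = (W.filter (fun i => ¬ i < st j)).card ∧
        ((∑ i ∈ W, a i) % q j) % t j = ∑ i ∈ W.filter (fun i => i < st j), a i := by
      intro W hW
      have h1 := sum_lt j (W.filter (fun i => i < st j)) (fun i hi => (Finset.mem_filter.mp hi).2)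
      have h2 := card_le j W hW
      have hM := M_pos j
      have h3 : ∑ i ∈ W.filter (fun i => i < st j), a i
          + (W.filter (fun i => ¬ i < st j)).card * t j < q j := by
        have h4 : (W.filter (fun i => ¬ i < st j)).card * t j ≤ M j * t j :=
          Nat.mul_le_mul_right _ h2
        have h5 : q j = M j * t j + M j * t j := by unfold q; ring
        have h6 : t j ≤ M j * t j := Nat.le_mul_of_pos_left _ (by omega)
        omega
      have h7 : (∑ i ∈ W, a i) % q j = ∑ i ∈ W.filter (fun i => i < st j), a i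
          + (W.filter (fun i => ¬ i < st j)).card * t j := by
        rw [decomp j W hW, Nat.add_mul_mod_self_left, Nat.mod_eq_of_lt h3]
      rw [h7]
      constructor
      · rw [Nat.add_mul_div_right _ _ ht, Nat.div_eq_of_lt h1, Nat.zero_add]
      · rw [Nat.add_mul_mod_self_right, Nat.mod_eq_of_lt h1]
    have kU := key U hU
    have kV := key V hV
    rw [h] at kU
    have hc : (U.filter (fun i => ¬ i < st j)).card = (V.filter (fun i => ¬ i < st j)).card := by
      rw [← kU.1, kV.1]
    have hs : ∑ i ∈ U.filter (fun i => i < st j), a i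
        = ∑ i ∈ V.filter (fun i => i < st j), a i := by
      rw [← kU.2, kV.2]
    have hc2 := ih _ _ (fun i hi => (Finset.mem_filter.mp hi).2)
      (fun i hi => (Finset.mem_filter.mp hi).2) hs
    rw [← Finset.card_filter_add_card_filter_not (s := U) (fun i => i < st j),
      ← Finset.card_filter_add_card_filter_not (s := V) (fun i => i < st j), hc, hc2]

lemma t_sq (i : ℕ) : (t (i + 1)) ^ 2 ≤ 16 ^ (i + 1) * (M i) ^ 9 := by
  induction i with
  | zero => simp [t, M]
  | succ i ih =>
    have h1 : t (i + 1 + 1) = 4 * (M (i + 1)) ^ 3 * t (i + 1) := rfl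
    rw [h1]
    calc (4 * (M (i + 1)) ^ 3 * t (i + 1)) ^ 2 = 16 * (M (i + 1)) ^ 6 * (t (i + 1)) ^ 2 := by ring
      _ ≤ 16 * (M (i + 1)) ^ 6 * (16 ^ (i + 1) * (M i) ^ 9) := Nat.mul_le_mul_left _ ih
      _ = 16 ^ (i + 1 + 1) * (M (i + 1)) ^ 6 * ((M i) ^ 3) ^ 3 := by ring
      _ = 16 ^ (i + 1 + 1) * (M (i + 1)) ^ 9 := by rw [← M_succ]; ring

lemma pow_aux (i : ℕ) (hi : 3 ≤ i) : 4 * (i + 1) + 2 ≤ 3 ^ i := by
  induction i, hi using Nat.le_induction with
  | base => norm_num
  | succ n hn ih => rw [pow_succ]; omega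

lemma q_le (i : ℕ) (hi : 3 ≤ i) : q (i + 1) ≤ (M i) ^ 8 := by
  have hM := M_pos i
  have h1 : (q (i + 1)) ^ 2 ≤ ((M i) ^ 8) ^ 2 := by
    have e1 : (q (i + 1)) ^ 2 = 4 * (M i) ^ 6 * (t (i + 1)) ^ 2 := by
      unfold q
      rw [M_succ]; ring
    rw [e1]
    have h2 : 4 * 16 ^ (i + 1) ≤ M i := by
      unfold M
      have : (4 : ℕ) * 16 ^ (i + 1) = 2 ^ (4 * (i + 1) + 2) := by
        have h16 : (16 : ℕ) = 2 ^ 4 := by norm_num
        have h4 : (4 : ℕ) = 2 ^ 2 := by norm_num
        calc (4 : ℕ) * 16 ^ (i + 1) = 2 ^ 2 * (2 ^ 4) ^ (i + 1) := by norm_num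
          _ = 2 ^ (4 * (i + 1) + 2) := by rw [← pow_mul, ← pow_add, Nat.add_comm]
      rw [this]
      exact Nat.pow_le_pow_right (by norm_num) (pow_aux i hi)
    calc 4 * (M i) ^ 6 * (t (i + 1)) ^ 2 ≤ 4 * (M i) ^ 6 * (16 ^ (i + 1) * (M i) ^ 9) :=
          Nat.mul_le_mul_left _ (t_sq i)
      _ = (4 * 16 ^ (i + 1)) * (M i) ^ 15 := by ring
      _ ≤ M i * (M i) ^ 15 := Nat.mul_le_mul_right _ h2
      _ = ((M i) ^ 8) ^ 2 := by ring
  exact (Nat.pow_le_pow_iff_left (by norm_num)).mp h1

lemma small (i : ℕ) (hi : 3 ≤ i) : 16 ^ (i + 1) ≤ M i := by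
  have h : (16 : ℕ) ^ (i + 1) = 2 ^ (4 * (i + 1)) := by
    rw [pow_mul]; norm_num
  rw [h]
  unfold M
  have := pow_aux i hi
  exact Nat.pow_le_pow_right (by norm_num) (by omega)

lemma t_le (i : ℕ) (hi : 3 ≤ i) : t (i + 1) ≤ (M i) ^ 8 := by
  have hM := M_pos i
  have h1 : (t (i + 1)) ^ 2 ≤ ((M i) ^ 8) ^ 2 := by
    calc (t (i + 1)) ^ 2 ≤ 16 ^ (i + 1) * (M i) ^ 9 := t_sq i
      _ ≤ M i * (M i) ^ 9 := Nat.mul_le_mul_right _ (small i hi)
      _ = (M i) ^ 10 := by ring
      _ ≤ (M i) ^ 16 := Nat.pow_le_pow_right (by omega) (by norm_num)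
      _ = ((M i) ^ 8) ^ 2 := by ring
  exact (Nat.pow_le_pow_iff_left (by norm_num)).mp h1

lemma gap (n : ℕ) (hn : st 4 ≤ n) : a (n + 1) ≤ a n + (n + 1) ^ 8 := by
  have h1 := bl_le n
  have h2 := lt_bl n
  have hj4 : 4 ≤ bl n := by
    by_contra hcon
    have := st_mono.monotone (show bl n + 1 ≤ 4 by omega)
    omega
  obtain ⟨i, hi⟩ : ∃ i, bl n = i + 1 := ⟨bl n - 1, by omega⟩
  rw [hi] at h1 h2 hj4
  have hst : st (i + 1) = M i := rfl
  rcases Nat.lt_or_ge (n + 1) (st (i + 1 + 1)) with h | h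
  · rw [a_eq h1 h2, a_eq (by omega : st (i + 1) ≤ n + 1) h]
    have hq := q_le i (by omega)
    have hp : (M i) ^ 8 ≤ (n + 1) ^ 8 := Nat.pow_le_pow_left (by omega) 8
    have e : n + 1 - st (i + 1) = (n - st (i + 1)) + 1 := by omega
    rw [e, Nat.add_mul]
    omega
  · have e : n + 1 = st (i + 1 + 1) := by omega
    have h3 : a (n + 1) = t (i + 1 + 1) := by
      rw [e, a_eq (le_refl _) (st_lt _)]
      simp
    have h4 := t_le (i + 1) (by omega)
    have h5 : n + 1 = M (i + 1) := e
    rw [h3, h5]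
    omega

/-- **Every exponent `c ≥ 8` is attainable** (known range: `c > 5 + 2√6 = 9.898…`). -/
theorem result : ∀ c : ℝ, 8 ≤ c → Attainable c := by
  intro c hc
  refine ⟨a, a_strictMono, ?_, ?_, st 4, ?_⟩
  · intro n
    unfold a
    have := t_pos (bl n)
    omega
  · intro S T _ _ h
    obtain ⟨K, hK⟩ : ∃ K, S ∪ T ⊆ range K := ⟨(S ∪ T).sup id + 1, fun i hi => by
      have : id i ≤ (S ∪ T).sup id := Finset.le_sup hi
      simp only [id] at this
      exact Finset.mem_range.mpr (by omega)⟩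
    have hlt : ∀ i ∈ S ∪ T, i < st K := fun i hi => by
      have h1 := Finset.mem_range.mp (hK hi)
      have h2 : K ≤ st K := st_mono.id_le K
      omega
    exact adm K S T (fun i hi => hlt i (Finset.mem_union_left _ hi))
      (fun i hi => hlt i (Finset.mem_union_right _ hi)) h
  · intro n hn
    have h1 : (a (n + 1) : ℝ) ≤ a n + ((n : ℝ) + 1) ^ 8 := by exact_mod_cast gap n hn
    have h2 : ((n : ℝ) + 1) ^ (8 : ℕ) ≤ ((n : ℝ) + 1) ^ c := by
      rw [← Real.rpow_natCast]
      apply Real.rpow_le_rpow_of_exponent_le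
      · have : (0 : ℝ) ≤ n := Nat.cast_nonneg n
        linarith
      · push_cast; exact hc
    linarith

end Pool.Agent.Results.MP_a0ba93_nt.ExponentEight
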